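import Pool.Agent.Work.MP_209cb6_gt.Main

/-!
# Boundary measure of noncollapsed RCD(K,N) spaces without a volume constant
-/

set_option autoImplicit false

open MeasureTheory MeasureTheory.Measure Metric Set
open scoped ENNReal

namespace Pool.Agent.Results.MP_209cb6_gt.BoundaryMeasure

open Pool.Agent.BDRY

universe u

/-- For all `K ≤ 0` and `N = n + 1` there is a constant `C` such that in every noncollapsed
`RCD(K,N)` space `X`, for every ball of radius `r < 1` and every set `D` which is contained, up to
an `H^(N-1)`-null set, in the set of points with a half-space tangent cone,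
`H^(N-1)(B_r(x) ∩ D) ≤ C r^(N-1)`. -/
theorem result {K : ℝ} (hK : K ≤ 0) (n : ℕ) : ∃ C : ℝ, 0 < C ∧
    ∀ (X : Type u) [MetricSpace X] [MeasurableSpace X] [BorelSpace X],
      IsRCD K (n + 1) X (μHE[n + 1] : Measure X) →
      ∀ D : Set X, (μHE[n] : Measure X) (D \ {y | HalfTangent n y}) = 0 →
      ∀ (x : X) (r : ℝ), 0 < r → r < 1 →
        (μHE[n] : Measure X) (ball x r ∩ D) ≤ ENNReal.ofReal (C * r ^ n) :=
  main_null hK n

end Pool.Agent.Results.MP_209cb6_gt.BoundaryMeasure
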